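import Mathlib

namespace Pool.Agent.Results.MP_55f31a_lc.LipImpliesLpp

/-- Formulas in negation normal form. -/
inductive Fm : Type
  | pos (p : ℕ) : Fm
  | ng (p : ℕ) : Fm
  | bot : Fm
  | top : Fm
  | and (a b : Fm) : Fm
  | or (a b : Fm) : Fm
  | dia (a : Fm) : Fm
  | box (a : Fm) : Fm

namespace Fm

/-- Negation, by the De Morgan and modal duality laws. -/
def neg : Fm → Fm
  | pos p => ng p
  | ng p => pos p
  | bot => top
  | top => bot
  | and a b => or (neg a) (neg b)
  | or a b => and (neg a) (neg b)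
  | dia a => box (neg a)
  | box a => dia (neg a)

/-- Implication. -/
def imp (a b : Fm) : Fm := or (neg a) b

/-- Equivalence. -/
def iff (a b : Fm) : Fm := and (imp a b) (imp b a)

/-- Uniform substitution. -/
def subst (σ : ℕ → Fm) : Fm → Fm
  | pos p => σ p
  | ng p => neg (σ p)
  | bot => bot
  | top => top
  | and a b => and (subst σ a) (subst σ b)
  | or a b => or (subst σ a) (subst σ b)
  | dia a => dia (subst σ a)
  | box a => box (subst σ a)

/-- The literals occurring in a formula: `(p, true)` is `p` and `(p, false)` is `¬p`. -/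
def lits : Fm → Set (ℕ × Bool)
  | pos p => {(p, true)}
  | ng p => {(p, false)}
  | bot => ∅
  | top => ∅
  | and a b => lits a ∪ lits b
  | or a b => lits a ∪ lits b
  | dia a => lits a
  | box a => lits a

/-- The variables occurring in a formula. -/
def vars (a : Fm) : Set ℕ := {p | ∃ s, (p, s) ∈ lits a}

/-- Formulas without modalities. -/
def ModFree : Fm → Prop
  | and a b => ModFree a ∧ ModFree b
  | or a b => ModFree a ∧ ModFree b
  | dia _ => False
  | box _ => False
  | _ => True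

/-- Classical truth value (used only for formulas without modalities). -/
def eval (v : ℕ → Prop) : Fm → Prop
  | pos p => v p
  | ng p => ¬ v p
  | bot => False
  | top => True
  | and a b => eval v a ∧ eval v b
  | or a b => eval v a ∨ eval v b
  | dia _ => False
  | box _ => False

/-- A formula with no negated variable. -/
def Positive (a : Fm) : Prop := ∀ p, (p, false) ∉ lits a

end Fm

open Fm

/-- Monotone modal logics. -/
structure IsMonotoneLogic (L : Set Fm) : Prop where
  taut : ∀ a, ModFree a → (∀ v, eval v a) → a ∈ L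
  dual : iff (box (pos 0)) (neg (dia (neg (pos 0)))) ∈ L
  mono : imp (dia (pos 0)) (dia (or (pos 0) (pos 1))) ∈ L
  mp : ∀ a b, imp a b ∈ L → a ∈ L → b ∈ L
  sub : ∀ a σ, a ∈ L → subst σ a ∈ L
  cong : ∀ a b, iff a b ∈ L → iff (dia a) (dia b) ∈ L

/-- `a` is monotone in `L`: `L` proves `a(p) → a(p ∨ q)` for fresh distinct variables `q`. -/
def MonotoneIn (L : Set Fm) (a : Fm) : Prop :=
  ∃ q : ℕ → ℕ, Set.InjOn q (vars a) ∧ (∀ p ∈ vars a, q p ∉ vars a) ∧
    imp a (subst (fun p => or (pos p) (pos (q p))) a) ∈ L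

/-- The Lyndon positivity property. -/
def LPP (L : Set Fm) : Prop :=
  ∀ a, MonotoneIn L a → ∃ b, Positive b ∧ iff a b ∈ L

/-- The Lyndon interpolation property. -/
def LIP (L : Set Fm) : Prop :=
  ∀ a b, imp a b ∈ L → ∃ c, lits c ⊆ lits a ∩ lits b ∧ imp a c ∈ L ∧ imp c b ∈ L

@[simp] lemma neg_neg' (a : Fm) : neg (neg a) = a := by
  induction a <;> simp_all [neg]

lemma subst_neg (σ : ℕ → Fm) (a : Fm) : subst σ (neg a) = neg (subst σ a) := by
  induction a <;> simp_all [neg, subst]

lemma subst_imp (σ : ℕ → Fm) (a b : Fm) : subst σ (imp a b) = imp (subst σ a) (subst σ b) := by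
  simp [imp, subst, subst_neg]

def psubst (s t : ℕ → Fm) : Fm → Fm
  | pos p => s p
  | ng p => t p
  | bot => bot
  | top => top
  | .and a b => .and (psubst s t a) (psubst s t b)
  | .or a b => .or (psubst s t a) (psubst s t b)
  | dia a => dia (psubst s t a)
  | box a => box (psubst s t a)

lemma subst_psubst (σ s t : ℕ → Fm) (a : Fm) :
    subst σ (psubst s t a) = psubst (fun p => subst σ (s p)) (fun p => subst σ (t p)) a := by
  induction a <;> simp_all [psubst, subst]

lemma subst_eq (σ : ℕ → Fm) (a : Fm) : subst σ a = psubst σ (fun p => neg (σ p)) a := by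
  induction a <;> simp_all [psubst, subst]

lemma psubst_id (a : Fm) : psubst pos ng a = a := by
  induction a <;> simp_all [psubst]

lemma lits_psubst (s t : ℕ → Fm) (a : Fm) (l : ℕ × Bool) (h : l ∈ lits (psubst s t a)) :
    ∃ p ∈ vars a, l ∈ lits (s p) ∨ l ∈ lits (t p) := by
  induction a with
  | pos p => exact ⟨p, ⟨true, rfl⟩, Or.inl h⟩
  | ng p => exact ⟨p, ⟨false, rfl⟩, Or.inr h⟩
  | bot => exact h.elim
  | top => exact h.elim
  | and a b iha ihb =>
    rcases h with h | h
    · obtain ⟨p, ⟨u, hp⟩, h⟩ := iha h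
      exact ⟨p, ⟨u, Or.inl hp⟩, h⟩
    · obtain ⟨p, ⟨u, hp⟩, h⟩ := ihb h
      exact ⟨p, ⟨u, Or.inr hp⟩, h⟩
  | or a b iha ihb =>
    rcases h with h | h
    · obtain ⟨p, ⟨u, hp⟩, h⟩ := iha h
      exact ⟨p, ⟨u, Or.inl hp⟩, h⟩
    · obtain ⟨p, ⟨u, hp⟩, h⟩ := ihb h
      exact ⟨p, ⟨u, Or.inr hp⟩, h⟩
  | dia a ih => exact ih h
  | box a ih => exact ih h

variable {L : Set Fm} (hL : IsMonotoneLogic L)
include hL

lemma taut4 (χ : Fm) (h1 : ModFree χ) (h2 : ∀ v, eval v χ) (a b c d : Fm) :
    subst (fun n => if n = 0 then a else if n = 1 then b else if n = 2 then c else d) χ ∈ L :=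
  hL.sub _ _ (hL.taut χ h1 h2)

lemma imp_refl (a : Fm) : imp a a ∈ L := by
  have := taut4 hL (imp (pos 0) (pos 0)) (by simp [imp, neg, ModFree])
    (fun v => by simp only [imp, neg, eval]; tauto) a a a a
  simpa [subst_imp, subst] using this

lemma imp_trans {a b c : Fm} (h1 : imp a b ∈ L) (h2 : imp b c ∈ L) : imp a c ∈ L := by
  have := taut4 hL (imp (imp (pos 0) (pos 1)) (imp (imp (pos 1) (pos 2)) (imp (pos 0) (pos 2))))
    (by simp [imp, neg, ModFree]) (fun v => by simp only [imp, neg, eval]; tauto) a b c c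
  simp only [subst_imp, subst] at this
  exact hL.mp _ _ (hL.mp _ _ (by simpa using this) h1) h2

lemma imp_and {a b c d : Fm} (h1 : imp a b ∈ L) (h2 : imp c d ∈ L) :
    imp (.and a c) (.and b d) ∈ L := by
  have := taut4 hL (imp (imp (pos 0) (pos 1)) (imp (imp (pos 2) (pos 3))
    (imp (.and (pos 0) (pos 2)) (.and (pos 1) (pos 3)))))
    (by simp [imp, neg, ModFree]) (fun v => by simp only [imp, neg, eval]; tauto) a b c d
  simp only [subst_imp, subst] at this
  exact hL.mp _ _ (hL.mp _ _ (by simpa using this) h1) h2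

lemma imp_or {a b c d : Fm} (h1 : imp a b ∈ L) (h2 : imp c d ∈ L) :
    imp (.or a c) (.or b d) ∈ L := by
  have := taut4 hL (imp (imp (pos 0) (pos 1)) (imp (imp (pos 2) (pos 3))
    (imp (.or (pos 0) (pos 2)) (.or (pos 1) (pos 3)))))
    (by simp [imp, neg, ModFree]) (fun v => by simp only [imp, neg, eval]; tauto) a b c d
  simp only [subst_imp, subst] at this
  exact hL.mp _ _ (hL.mp _ _ (by simpa using this) h1) h2

lemma iff_intro {a b : Fm} (h1 : imp a b ∈ L) (h2 : imp b a ∈ L) : iff a b ∈ L := by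
  have := taut4 hL (imp (pos 0) (imp (pos 1) (.and (pos 0) (pos 1))))
    (by simp [imp, neg, ModFree]) (fun v => by simp only [imp, neg, eval]; tauto)
    (imp a b) (imp b a) a a
  simp only [subst_imp, subst] at this
  exact hL.mp _ _ (hL.mp _ _ (by simpa [Fm.iff] using this) h1) h2

lemma iff_left {a b : Fm} (h : iff a b ∈ L) : imp a b ∈ L := by
  have := taut4 hL (imp (.and (pos 0) (pos 1)) (pos 0))
    (by simp [imp, neg, ModFree]) (fun v => by simp only [imp, neg, eval]; tauto)
    (imp a b) (imp b a) a a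
  simp only [subst_imp, subst] at this
  exact hL.mp _ _ (by simpa [Fm.iff] using this) h

lemma contra {a b : Fm} (h : imp a b ∈ L) : imp (neg b) (neg a) ∈ L := by
  have := taut4 hL (imp (imp (pos 0) (pos 1)) (imp (ng 1) (ng 0)))
    (by simp [imp, neg, ModFree]) (fun v => by simp only [imp, neg, eval]; tauto) a b a a
  simp only [subst_imp, subst] at this
  exact hL.mp _ _ (by simpa using this) h

lemma imp_dia {a b : Fm} (h : imp a b ∈ L) : imp (dia a) (dia b) ∈ L := by
  have h1 := hL.sub _ (fun n => if n = 0 then a else b) hL.mono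
  simp only [subst_imp, subst] at h1
  have h2 := taut4 hL (imp (imp (pos 0) (pos 1)) (imp (.or (pos 0) (pos 1)) (pos 1)))
    (by simp [imp, neg, ModFree]) (fun v => by simp only [imp, neg, eval]; tauto) a b a a
  have h3 := taut4 hL (imp (pos 1) (.or (pos 0) (pos 1)))
    (by simp [imp, neg, ModFree]) (fun v => by simp only [imp, neg, eval]; tauto) a b a a
  simp only [subst_imp, subst] at h2 h3
  have h4 : iff (.or a b) b ∈ L :=
    iff_intro hL (hL.mp _ _ (by simpa using h2) h) (by simpa using h3)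
  exact imp_trans hL (by simpa using h1) (iff_left hL (hL.cong _ _ h4))

lemma imp_box {a b : Fm} (h : imp a b ∈ L) : imp (box a) (box b) ∈ L := by
  have := contra hL (imp_dia hL (contra hL h))
  simpa [neg] using this

lemma mono2 (s t s' t' : ℕ → Fm) (a : Fm) (h1 : ∀ p ∈ vars a, imp (s p) (s' p) ∈ L)
    (h2 : ∀ p ∈ vars a, imp (t p) (t' p) ∈ L) : imp (psubst s t a) (psubst s' t' a) ∈ L := by
  induction a with
  | pos p => exact h1 p ⟨true, rfl⟩
  | ng p => exact h2 p ⟨false, rfl⟩
  | bot => exact imp_refl hL _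
  | top => exact imp_refl hL _
  | and a b iha ihb =>
    exact imp_and hL (iha (fun p ⟨u, hp⟩ => h1 p ⟨u, Or.inl hp⟩) (fun p ⟨u, hp⟩ => h2 p ⟨u, Or.inl hp⟩))
      (ihb (fun p ⟨u, hp⟩ => h1 p ⟨u, Or.inr hp⟩) (fun p ⟨u, hp⟩ => h2 p ⟨u, Or.inr hp⟩))
  | or a b iha ihb =>
    exact imp_or hL (iha (fun p ⟨u, hp⟩ => h1 p ⟨u, Or.inl hp⟩) (fun p ⟨u, hp⟩ => h2 p ⟨u, Or.inl hp⟩))
      (ihb (fun p ⟨u, hp⟩ => h1 p ⟨u, Or.inr hp⟩) (fun p ⟨u, hp⟩ => h2 p ⟨u, Or.inr hp⟩))
  | dia a ih => exact imp_dia hL (ih h1 h2)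
  | box a ih => exact imp_box hL (ih h1 h2)

omit hL in
theorem result (L : Set Fm) (hL : IsMonotoneLogic L) (h : LIP L) : LPP L := by
  classical
  rintro a ⟨q, hq, hfresh, hm⟩
  let ρ : ℕ → ℕ := fun x => if x ∈ vars a then x else Function.invFunOn q (vars a) x
  have hρ1 : ∀ p ∈ vars a, ρ p = p := fun p hp => by simp [ρ, hp]
  have hρ2 : ∀ p ∈ vars a, ρ (q p) = p := fun p hp => by
    simp only [ρ, hfresh p hp, if_false]
    exact hq.leftInvOn_invFunOn hp
  let τ : ℕ → Fm := fun x => if x ∈ vars a then .and (pos x) (pos (q x)) else pos (ρ x)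
  have hτ1 : ∀ p ∈ vars a, τ p = .and (pos p) (pos (q p)) := fun p hp => by simp [τ, hp]
  have hτ2 : ∀ p ∈ vars a, τ (q p) = pos p := fun p hp => by
    simp only [τ, hfresh p hp, if_false, hρ2 p hp]
  let A : Fm := psubst (fun p => .and (pos p) (pos (q p))) (fun p => ng (q p)) a
  have h1 := hL.sub _ τ hm
  rw [subst_imp, subst_eq (fun p => or (pos p) (pos (q p))) a, subst_psubst, subst_eq τ a] at h1
  have h2 : imp A (psubst τ (fun p => neg (τ p)) a) ∈ L := by
    refine mono2 hL _ _ _ _ a (fun p hp => ?_) (fun p hp => ?_)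
    · rw [hτ1 p hp]; exact imp_refl hL _
    · rw [hτ1 p hp]
      exact hL.taut _ (by simp [imp, neg, ModFree]) (fun v => by simp only [imp, neg, eval]; tauto)
  have h3 : imp (psubst (fun p => subst τ (or (pos p) (pos (q p))))
      (fun p => subst τ (neg (or (pos p) (pos (q p))))) a) (psubst pos ng a) ∈ L := by
    refine mono2 hL _ _ _ _ a (fun p hp => ?_) (fun p hp => ?_)
    · simp only [subst, hτ1 p hp, hτ2 p hp]
      exact hL.taut _ (by simp [imp, neg, ModFree]) (fun v => by simp only [imp, neg, eval]; tauto)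
    · simp only [subst, neg, hτ1 p hp, hτ2 p hp]
      exact hL.taut _ (by simp [imp, neg, ModFree]) (fun v => by simp only [imp, neg, eval]; tauto)
  rw [psubst_id] at h3
  obtain ⟨c, hc, k1, k2⟩ := h A a (imp_trans hL h2 (imp_trans hL h1 h3))
  refine ⟨c, fun p hp => ?_, iff_intro hL ?_ k2⟩
  · obtain ⟨r, hr, h | h⟩ := lits_psubst _ _ a _ (hc hp).1
    · simp [lits] at h
    · have : p = q r := by simpa [lits] using h
      exact hfresh r hr (this ▸ ⟨false, (hc hp).2⟩)
  · have k3 := hL.sub _ (fun x => pos (ρ x)) k1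
    rw [subst_imp, subst_psubst, subst_eq _ c] at k3
    have k4 : imp (psubst pos ng a) (psubst (fun p => subst (fun x => pos (ρ x))
        (.and (pos p) (pos (q p)))) (fun p => subst (fun x => pos (ρ x)) (ng (q p))) a) ∈ L := by
      refine mono2 hL _ _ _ _ a (fun p hp => ?_) (fun p hp => ?_)
      · simp only [subst, hρ1 p hp, hρ2 p hp]
        exact hL.taut _ (by simp [imp, neg, ModFree])
          (fun v => by simp only [imp, neg, eval]; tauto)
      · simp only [subst, neg, hρ2 p hp]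
        exact imp_refl hL _
    have k5 : imp (psubst (fun x => pos (ρ x)) (fun p => neg (pos (ρ p))) c) (psubst pos ng c) ∈ L := by
      refine mono2 hL _ _ _ _ c (fun p ⟨u, hp⟩ => ?_) (fun p ⟨u, hp⟩ => ?_)
      · rw [hρ1 p ⟨u, (hc hp).2⟩]; exact imp_refl hL _
      · rw [hρ1 p ⟨u, (hc hp).2⟩]; exact imp_refl hL _
    rw [psubst_id] at k4 k5
    exact imp_trans hL k4 (imp_trans hL k3 k5)

end Pool.Agent.Results.MP_55f31a_lc.LipImpliesLpp
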